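import Pool.Agent.Helper71.HN.SheetH
import Pool.Agent.Helper70.JN.Locf
import Pool.Agent.Helper70.JN.GSK

/-! Project HN, row ALGH: `x` is algebraic over `K` (helper52, after helper70's row ALGW). -/

set_option autoImplicit false

namespace Pool.Agent.Helper52.HN

open Polynomial Pool.Agent.Helper71.JN Pool.Agent.Helper71.HN
open Pool.Agent.Helper70.JN (v_pow_le gskP)

/-- the weights in increasing order -/
def wg (g j : ℕ) : ℕ := if j ≤ g then 2 * j else j + g

theorem wg_lt {g i j : ℕ} (h : i < j) : wg g i < wg g j := by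
  unfold wg
  split_ifs <;> omega

theorem wg_le {g j : ℕ} : wg g j ≤ j + g := by
  unfold wg
  split_ifs <;> omega

theorem le_wg {g j : ℕ} : j ≤ wg g j := by
  unfold wg
  split_ifs <;> omega

theorem wg_inj {g i j : ℕ} (h : wg g i = wg g j) : i = j := by
  rcases lt_trichotomy i j with h1 | h1 | h1
  · have := wg_lt (g := g) h1
    omega
  · exact h1
  · have := wg_lt (g := g) h1
    omega

theorem ok_wg (g j : ℕ) : Ok g (wg g j) := by
  unfold Ok wg
  split_ifs
  · exact Or.inl (even_two_mul j)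
  · exact Or.inr (by omega)

theorem wg_surj {g V : ℕ} (h : Ok g V) : ∃ l, wg g l = V := by
  unfold wg
  by_cases h1 : V ≤ 2 * g
  · have h2 : Even V := by
      rcases h with h | h
      · exact h
      · omega
    obtain ⟨a, ha⟩ := h2
    exact ⟨a, by rw [if_pos (by omega)]; omega⟩
  · exact ⟨V - g, by rw [if_neg (by omega)]; omega⟩

theorem ok_add {g V W : ℕ} (hV : Ok g V) (hW : Ok g W) : Ok g (V + W) := by
  unfold Ok at *
  rcases hV with h | h
  · rcases hW with h' | h'
    · exact Or.inl (h.add h')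
    · exact Or.inr (by omega)
  · exact Or.inr (by omega)

theorem ok_mul {g w : ℕ} (hw : 2 * g + 1 ≤ w) (l : ℕ) : Ok g (l * w) := by
  rcases Nat.eq_zero_or_pos l with h | h
  · exact Or.inl (by rw [h, zero_mul]; exact Even.zero)
  · exact Or.inr (hw.trans (Nat.le_mul_of_pos_left w h))

section fil
variable {K Ω : Type} [Field K] [Field Ω] [Algebra K Ω]

/-- the span of the monomials of weight `< W` -/
def Fil (K : Type) {Ω : Type} [Field K] [Field Ω] [Algebra K Ω] (g : ℕ) (x y : Ω) (W : ℕ) :
    Submodule K Ω :=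
  Submodule.span K {z | ∃ V, V < W ∧ Ok g V ∧ z = em g x y V}

theorem em_mem {g : ℕ} {x y : Ω} {V W : ℕ} (h : V < W) (h1 : Ok g V) :
    em g x y V ∈ Fil K g x y W :=
  Submodule.subset_span ⟨V, h, h1, rfl⟩

theorem Fil_mono {g : ℕ} {x y : Ω} {V W : ℕ} (h : V ≤ W) : Fil K g x y V ≤ Fil K g x y W :=
  Submodule.span_mono fun _ ⟨U, hU, h1, he⟩ => ⟨U, lt_of_lt_of_le hU h, h1, he⟩

theorem em_zero (g : ℕ) (x y : Ω) : em g x y 0 = 1 := by
  unfold Pool.Agent.Helper71.HN.em
  simp

/-- powers of `x` times a monic polynomial -/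
theorem pow_mem_Fil {g : ℕ} {x y : Ω} {P : K[X]} (hP : P.Monic) (c : ℕ) :
    x ^ c * aeval x P - x ^ (c + P.natDegree) ∈ Fil K g x y (2 * (c + P.natDegree)) := by
  have h1 : aeval x P = x ^ P.natDegree +
      ∑ i ∈ Finset.range P.natDegree, P.coeff i • x ^ i := by
    conv_lhs => rw [hP.as_sum]
    rw [map_add, map_pow, aeval_X, map_sum]
    congr 1
    refine Finset.sum_congr rfl fun i _ => ?_
    rw [map_mul, aeval_C, map_pow, aeval_X, Algebra.smul_def]
  have h2 : x ^ c * aeval x P - x ^ (c + P.natDegree) =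
      ∑ i ∈ Finset.range P.natDegree, P.coeff i • em g x y (2 * (c + i)) := by
    rw [h1, mul_add, ← pow_add, add_sub_cancel_left, Finset.mul_sum]
    refine Finset.sum_congr rfl fun i _ => ?_
    unfold Pool.Agent.Helper71.HN.em
    rw [if_pos (even_two_mul _), mul_smul_comm, ← pow_add]
    congr 2
    omega
  rw [h2]
  refine sum_mem fun i hi => Submodule.smul_mem _ _ (em_mem ?_ (Or.inl (even_two_mul _)))
  have := Finset.mem_range.1 hi
  omega

/-- product of two monomials -/
theorem em_mul {g : ℕ} {x y : Ω} {P : K[X]} (hP : P.Monic) (hd : P.natDegree = 2 * g + 1)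
    (hE : y ^ 2 = aeval x P) {V W : ℕ} (hV : Ok g V) (hW : Ok g W) :
    em g x y V * em g x y W - em g x y (V + W) ∈ Fil K g x y (V + W) := by
  unfold Pool.Agent.Helper71.HN.em
  by_cases h1 : Even V
  · by_cases h2 : Even W
    · rw [if_pos h1, if_pos h2, if_pos (h1.add h2), ← pow_add]
      obtain ⟨a, ha⟩ := h1
      obtain ⟨b, hb⟩ := h2
      have e : V / 2 + W / 2 = (V + W) / 2 := by omega
      rw [e, sub_self]
      exact zero_mem _
    · have h3 : ¬ Even (V + W) := by
        rw [Nat.even_add]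
        tauto
      rw [if_pos h1, if_neg h2, if_neg h3, ← mul_assoc, ← pow_add]
      obtain ⟨a, ha⟩ := h1
      obtain ⟨b, hb⟩ := Nat.not_even_iff_odd.1 h2
      have hW' : 2 * g + 1 ≤ W := by
        rcases hW with h | h
        · exact absurd h h2
        · exact h
      have e : V / 2 + (W - (2 * g + 1)) / 2 = (V + W - (2 * g + 1)) / 2 := by omega
      rw [e, sub_self]
      exact zero_mem _
  · have hV' : 2 * g + 1 ≤ V := by
      rcases hV with h | h
      · exact absurd h h1
      · exact h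
    by_cases h2 : Even W
    · have h3 : ¬ Even (V + W) := by
        rw [Nat.even_add]
        tauto
      rw [if_neg h1, if_pos h2, if_neg h3]
      obtain ⟨b, hb⟩ := h2
      obtain ⟨a, ha⟩ := Nat.not_even_iff_odd.1 h1
      have e : x ^ ((V - (2 * g + 1)) / 2) * y * x ^ (W / 2) =
          x ^ ((V - (2 * g + 1)) / 2 + W / 2) * y := by
        rw [pow_add]
        ring
      have e2 : (V - (2 * g + 1)) / 2 + W / 2 = (V + W - (2 * g + 1)) / 2 := by omega
      rw [e, e2, sub_self]
      exact zero_mem _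
    · have h3 : Even (V + W) := by
        rw [Nat.even_add]
        tauto
      rw [if_neg h1, if_neg h2, if_pos h3]
      obtain ⟨a, ha⟩ := Nat.not_even_iff_odd.1 h1
      obtain ⟨b, hb⟩ := Nat.not_even_iff_odd.1 h2
      have hW' : 2 * g + 1 ≤ W := by
        rcases hW with h | h
        · exact absurd h h2
        · exact h
      have e : x ^ ((V - (2 * g + 1)) / 2) * y * (x ^ ((W - (2 * g + 1)) / 2) * y) =
          x ^ ((V - (2 * g + 1)) / 2 + (W - (2 * g + 1)) / 2) * aeval x P := by
        rw [← hE, pow_add]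
        ring
      have h4 := pow_mem_Fil (g := g) (x := x) (y := y) hP
        ((V - (2 * g + 1)) / 2 + (W - (2 * g + 1)) / 2)
      have e2 : (V - (2 * g + 1)) / 2 + (W - (2 * g + 1)) / 2 + P.natDegree = (V + W) / 2 := by
        rw [hd]
        omega
      have e3 : 2 * ((V + W) / 2) = V + W := by omega
      rw [e2, e3] at h4
      rw [e]
      exact h4

theorem em_mul_mem {g : ℕ} {x y : Ω} {P : K[X]} (hP : P.Monic) (hd : P.natDegree = 2 * g + 1)
    (hE : y ^ 2 = aeval x P) {V W U : ℕ} (hV : Ok g V) (hW : Ok g W) (h : V + W < U) :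
    em g x y V * em g x y W ∈ Fil K g x y U := by
  have h1 := em_mul hP hd hE hV hW
  have h2 : em g x y V * em g x y W =
      (em g x y V * em g x y W - em g x y (V + W)) + em g x y (V + W) := by ring
  rw [h2]
  exact add_mem (Fil_mono h.le h1) (em_mem h (ok_add hV hW))

theorem Fil_mul {g : ℕ} {x y : Ω} {P : K[X]} (hP : P.Monic) (hd : P.natDegree = 2 * g + 1)
    (hE : y ^ 2 = aeval x P) {V W : ℕ} {a b : Ω} (ha : a ∈ Fil K g x y V)
    (hb : b ∈ Fil K g x y W) : a * b ∈ Fil K g x y (V + W) := by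
  have h1 : Fil K g x y V * Fil K g x y W ≤ Fil K g x y (V + W) := by
    unfold Fil
    rw [Submodule.span_mul_span]
    refine Submodule.span_le.2 ?_
    rintro _ ⟨_, ⟨V', hV', h1, rfl⟩, _, ⟨W', hW', h2, rfl⟩, rfl⟩
    exact em_mul_mem hP hd hE h1 h2 (by omega)
  exact h1 (Submodule.mul_mem_mul ha hb)

theorem Fil_em {g : ℕ} {x y : Ω} {P : K[X]} (hP : P.Monic) (hd : P.natDegree = 2 * g + 1)
    (hE : y ^ 2 = aeval x P) {V W : ℕ} {a : Ω} (hW : Ok g W) (ha : a ∈ Fil K g x y V) :
    a * em g x y W ∈ Fil K g x y (V + W) := by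
  have h1 : Fil K g x y V ≤ (Fil K g x y (V + W)).comap (LinearMap.mulRight K (em g x y W)) := by
    refine Submodule.span_le.2 ?_
    rintro _ ⟨V', hV', h1, rfl⟩
    exact em_mul_mem hP hd hE h1 hW (by omega)
  exact h1 ha

/-- monic elements of weight `W` -/
def Mo (K : Type) {Ω : Type} [Field K] [Field Ω] [Algebra K Ω] (g : ℕ) (x y : Ω) (W : ℕ)
    (z : Ω) : Prop :=
  z - em g x y W ∈ Fil K g x y W

theorem Mo_mul {g : ℕ} {x y : Ω} {P : K[X]} (hP : P.Monic) (hd : P.natDegree = 2 * g + 1)
    (hE : y ^ 2 = aeval x P) {V W : ℕ} (hV : Ok g V) (hW : Ok g W) {a b : Ω}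
    (ha : Mo K g x y V a) (hb : Mo K g x y W b) : Mo K g x y (V + W) (a * b) := by
  unfold Mo at *
  have h1 : a * b - em g x y (V + W) = (a - em g x y V) * (b - em g x y W) +
      (a - em g x y V) * em g x y W + (b - em g x y W) * em g x y V +
      (em g x y V * em g x y W - em g x y (V + W)) := by ring
  rw [h1]
  refine add_mem (add_mem (add_mem (Fil_mul hP hd hE ha hb) (Fil_em hP hd hE hW ha)) ?_)
    (em_mul hP hd hE hV hW)
  have := Fil_em hP hd hE hV hb
  rwa [add_comm] at this

theorem Mo_em {g : ℕ} {x y : Ω} (W : ℕ) : Mo K g x y W (em g x y W) := by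
  unfold Mo
  rw [sub_self]
  exact zero_mem _

theorem Mo_pow {g : ℕ} {x y : Ω} {P : K[X]} (hP : P.Monic) (hd : P.natDegree = 2 * g + 1)
    (hE : y ^ 2 = aeval x P) {W : ℕ} (hW : 2 * g + 1 ≤ W) {a : Ω} (ha : Mo K g x y W a) (l : ℕ) :
    Mo K g x y (l * W) (a ^ l) := by
  induction l with
  | zero =>
    have := Mo_em (K := K) (g := g) (x := x) (y := y) 0
    rw [em_zero] at this
    simpa using this
  | succ l ih =>
    rw [pow_succ, Nat.succ_mul]
    exact Mo_mul hP hd hE (ok_mul hW l) (Or.inr hW) ih ha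

/-- independence of the monomials -/
theorem em_indep {g : ℕ} {x y : Ω} {P : K[X]} (hP : P.Monic) (hd : P.natDegree = 2 * g + 1)
    (hE : y ^ 2 = aeval x P) (hx : ¬ IsIntegral K x) (N : ℕ) :
    LinearIndependent K (fun j : Fin N => em g x y (wg g j)) := by
  classical
  have htr : Function.Injective (aeval x : K[X] →ₐ[K] Ω) := by
    rw [injective_iff_map_eq_zero]
    intro Q hQ
    by_contra h0
    exact hx (isAlgebraic_iff_isIntegral.1 ⟨Q, h0, hQ⟩)
  rw [Fintype.linearIndependent_iff]
  intro u hu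
  set A : K[X] := ∑ j : Fin N, if Even (wg g j) then C (u j) * X ^ (wg g j / 2) else 0 with hA
  set B : K[X] := ∑ j : Fin N, if Even (wg g j) then 0 else
    C (u j) * X ^ ((wg g j - (2 * g + 1)) / 2) with hB
  have h1 : aeval x A + aeval x B * y = 0 := by
    rw [← hu, hA, hB, map_sum, map_sum, Finset.sum_mul, ← Finset.sum_add_distrib]
    refine Finset.sum_congr rfl fun j _ => ?_
    unfold Pool.Agent.Helper71.HN.em
    by_cases h : Even (wg g j)
    · simp only [if_pos h, map_mul, aeval_C, map_pow, aeval_X, map_zero, zero_mul, add_zero,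
        Algebra.smul_def]
    · simp only [if_neg h, map_mul, aeval_C, map_pow, aeval_X, map_zero, zero_add,
        Algebra.smul_def, mul_assoc]
  have h2 : A ^ 2 = B ^ 2 * P := by
    apply htr
    rw [map_pow, map_mul, map_pow, ← hE]
    linear_combination (aeval x A - aeval x B * y) * h1
  have hB0 : B = 0 := by
    by_contra hB0
    have h4 := congrArg natDegree h2
    rw [natDegree_pow, natDegree_mul (pow_ne_zero 2 hB0) hP.ne_zero, natDegree_pow, hd] at h4
    omega
  have hA0 : A = 0 := by
    rw [hB0] at h2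
    have : A ^ 2 = 0 := by rw [h2]; ring
    exact pow_eq_zero_iff (two_ne_zero) |>.1 this
  intro j
  by_cases h : Even (wg g j)
  · have h3 := congrArg (fun Q : K[X] => Q.coeff (wg g j / 2)) hA0
    simp only [hA, finsetSum_coeff, coeff_zero] at h3
    rw [Finset.sum_eq_single j] at h3
    · rw [if_pos h] at h3
      simpa using h3
    · intro i _ hij
      split_ifs with h4
      · rw [coeff_C_mul, coeff_X_pow, if_neg, mul_zero]
        intro h5
        apply hij
        obtain ⟨a, ha⟩ := h
        obtain ⟨b, hb⟩ := h4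
        exact Fin.ext (wg_inj (g := g) (by omega))
      · exact coeff_zero _
    · intro h4
      exact absurd (Finset.mem_univ j) h4
  · have h3 := congrArg (fun Q : K[X] => Q.coeff ((wg g j - (2 * g + 1)) / 2)) hB0
    simp only [hB, finsetSum_coeff, coeff_zero] at h3
    rw [Finset.sum_eq_single j] at h3
    · rw [if_neg h] at h3
      simpa using h3
    · intro i _ hij
      split_ifs with h4
      · exact coeff_zero _
      · rw [coeff_C_mul, coeff_X_pow, if_neg, mul_zero]
        intro h5
        apply hij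
        have h6 : 2 * g + 1 ≤ wg g j := by
          rcases ok_wg g j with h' | h'
          · exact absurd h' h
          · exact h'
        have h7 : 2 * g + 1 ≤ wg g i := by
          rcases ok_wg g i with h' | h'
          · exact absurd h' h4
          · exact h'
        obtain ⟨a, ha⟩ := Nat.not_even_iff_odd.1 h
        obtain ⟨b, hb⟩ := Nat.not_even_iff_odd.1 h4
        exact Fin.ext (wg_inj (g := g) (by omega))
    · intro h4
      exact absurd (Finset.mem_univ j) h4

end fil

/-- the sum of the exponents becomes negative -/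
theorem sum_neg {μ δ : ℝ} {g w : ℕ} (hμ : 0 ≤ μ) (hw : 1 ≤ w) (hδ : μ * w < δ) :
    ∃ N : ℕ, ∑ j ∈ Finset.range N, (μ * ((N + g) / 2 : ℕ) - δ * ((wg g j - 2 * g) / w : ℕ) +
      (2 * g + w)) < 0 := by
  have hw0 : (0 : ℝ) < w := by exact_mod_cast hw
  have hδ0 : 0 < δ := lt_of_le_of_lt (mul_nonneg hμ hw0.le) hδ
  have hη : 0 < (δ / w - μ) / 2 := by
    have : μ < δ / w := by rwa [lt_div_iff₀ hw0]
    linarith
  set η : ℝ := (δ / w - μ) / 2 with hηd
  set C : ℝ := μ * g / 2 + δ / w * (1 / 2 + (2 * g + w)) + (2 * g + w) with hC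
  obtain ⟨N, hN⟩ := exists_nat_gt (C / η)
  have hC0 : 0 ≤ C := by positivity
  have hN0 : (0 : ℝ) < N := lt_of_le_of_lt (by positivity) hN
  refine ⟨N, ?_⟩
  have h1 : ∀ j ∈ Finset.range N, μ * ((N + g) / 2 : ℕ) - δ * ((wg g j - 2 * g) / w : ℕ) +
      (2 * g + w) ≤ μ * ((N + g) / 2) - δ / w * (j - (2 * g + w)) + (2 * g + w) := by
    intro j _
    have h2 : (((N + g) / 2 : ℕ) : ℝ) ≤ (N + g) / 2 := by
      have := @Nat.cast_div_le ℝ _ _ _ (N + g) 2
      push_cast at this
      exact this
    have h3 : (j : ℝ) - (2 * g + w) ≤ w * (((wg g j - 2 * g) / w : ℕ) : ℝ) := by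
      have h4 : wg g j - 2 * g < w * ((wg g j - 2 * g) / w + 1) :=
        Nat.lt_mul_div_succ _ (by omega)
      have h5 : j ≤ wg g j := le_wg
      have h6 : j < w * ((wg g j - 2 * g) / w + 1) + 2 * g := by omega
      have h7 : (j : ℝ) < w * ((((wg g j - 2 * g) / w : ℕ) : ℝ) + 1) + 2 * g := by
        exact_mod_cast h6
      linarith
    have h4 : δ / w * ((j : ℝ) - (2 * g + w)) ≤ δ * (((wg g j - 2 * g) / w : ℕ) : ℝ) := by
      have h5 := mul_le_mul_of_nonneg_left h3 (div_pos hδ0 hw0).le
      have h6 : δ / w * (w * (((wg g j - 2 * g) / w : ℕ) : ℝ)) =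
          δ * (((wg g j - 2 * g) / w : ℕ) : ℝ) := by
        field_simp
      linarith
    have h5 := mul_le_mul_of_nonneg_left h2 hμ
    linarith
  refine lt_of_le_of_lt (Finset.sum_le_sum h1) ?_
  have hs : ∑ j ∈ Finset.range N, (j : ℝ) = N * (N - 1) / 2 := by
    have h2 : ∀ n : ℕ, ∑ j ∈ Finset.range n, (j : ℝ) = n * (n - 1) / 2 := by
      intro n
      induction n with
      | zero => simp
      | succ n ih =>
        rw [Finset.sum_range_succ, ih]
        push_cast
        ring
    exact h2 N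
  have h2 : ∑ j ∈ Finset.range N, (μ * ((N + g) / 2) - δ / w * (j - (2 * g + w)) +
      (2 * g + w)) = N * (C - N * η) := by
    rw [Finset.sum_add_distrib, Finset.sum_sub_distrib, Finset.sum_const, Finset.sum_const,
      ← Finset.mul_sum, Finset.sum_sub_distrib, hs, Finset.sum_const, Finset.card_range]
    simp only [nsmul_eq_mul]
    rw [hηd, hC]
    ring
  rw [h2]
  refine mul_neg_of_pos_of_neg hN0 ?_
  rw [div_lt_iff₀ hη] at hN
  linarith

section
variable {F Ω : Type} [Field F] [Field Ω] [CharZero Ω] [Algebra F Ω] {I : Type} [Fintype I]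
  {r : ℕ}

theorem charZeroF (F Ω : Type) [Field F] [Field Ω] [CharZero Ω] [Algebra F Ω] :
    CharZero F := by
  have : Function.Injective (Nat.cast : ℕ → F) := by
    intro a b h
    have := congrArg (algebraMap F Ω) h
    rw [map_natCast, map_natCast] at this
    exact_mod_cast this
  exact ⟨this⟩

theorem nu_rat (D : SSF F Ω I r) (i : I) (q : ℚ) (hq : q ≠ 0) : D.nu i (q : Ω) = 1 := by
  have := charZeroF F Ω
  have h : ((q : ℚ) : Ω) = algebraMap F Ω (q : F) := by rw [map_ratCast]
  rw [h]
  exact D.F1 i _ (by exact_mod_cast hq)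

omit [CharZero Ω] in
/-- `m ^ A * em g x y W` in terms of `m * x` and `m ^ (g + 1) * y` -/
theorem em_dec {g : ℕ} {m x y : Ω} {W A : ℕ} (hW : Ok g W) (hA : (W + 1) / 2 ≤ A) :
    m ^ A * em g x y W = m ^ (A - (W + 1) / 2) * (if Even W then (m * x) ^ (W / 2) else
      (m * x) ^ ((W - (2 * g + 1)) / 2) * (m ^ (g + 1) * y)) := by
  unfold Pool.Agent.Helper71.HN.em
  split_ifs with h
  · obtain ⟨a, ha⟩ := h
    have e1 : (W + 1) / 2 = a := by omega
    have e2 : W / 2 = a := by omega
    rw [e1] at hA ⊢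
    rw [e2, mul_pow, ← mul_assoc, ← pow_add, Nat.sub_add_cancel hA]
  · have hW' : 2 * g + 1 ≤ W := by
      rcases hW with h' | h'
      · exact absurd h' h
      · exact h'
    obtain ⟨a, ha⟩ := Nat.not_even_iff_odd.1 h
    have e : m ^ A = m ^ (A - (W + 1) / 2) * (m ^ ((W - (2 * g + 1)) / 2) * m ^ (g + 1)) := by
      rw [← pow_add, ← pow_add]
      congr 1
      omega
    rw [e, mul_pow]
    ring

/-- **(ALGH)** `x` is algebraic over `K` -/
theorem ALGH (hLFG : ST_LFG) : ST_ALGH := by
  intro F Ω _ _ _ _ I _ r D J g f μ β m x y R h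
  classical
  by_contra hx
  have hμ := h.hμ
  have hg := h.hg
  have hβ1 : β < 1 := by linarith [h.hβ]
  have hη : 0 < 1 - β - μ := by linarith [h.hβ]
  -- the polynomial over `K`
  set P : D.K[X] := f.map (algebraMap F D.K) with hPd
  have hP : P.Monic := h.fm.map _
  have hd : P.natDegree = 2 * g + 1 := by
    rw [hPd, h.fm.natDegree_map]
    exact h.fd
  have hE : y ^ 2 = aeval x P := by
    rw [hPd, aeval_map_algebraMap]
    exact h.cu
  -- the order
  obtain ⟨n, hn⟩ := exists_nat_gt ((g : ℝ) * (1 + μ) / (1 - β - μ))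
  set k : ℕ := n + g + 1 with hk
  set w : ℕ := k + g with hw
  have hk1 : 1 ≤ k := by omega
  have hw1 : 2 * g + 1 ≤ w := by omega
  set δ : ℝ := k * (1 - β) - g with hδ
  have hδμ : μ * w < δ := by
    rw [div_lt_iff₀ hη] at hn
    have h1 : (n : ℝ) * (1 - β - μ) ≤ k * (1 - β - μ) := by
      refine mul_le_mul_of_nonneg_right ?_ hη.le
      exact_mod_cast (by omega : n ≤ k)
    rw [hδ, hw]
    push_cast
    nlinarith
  have hδ0 : 0 < δ := lt_of_le_of_lt (mul_nonneg hμ (Nat.cast_nonneg _)) hδμ
  -- the forms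
  have hF : ∀ i, ∃ G : Ω, i ∈ J → Mo D.K g x y w G ∧ D.nu i G ≤ Real.exp (-δ) := by
    intro i
    by_cases hi : i ∈ J
    swap
    · exact ⟨0, fun h => absurd h hi⟩
    obtain ⟨c, hcK, hc⟩ := hLFG F Ω (D.nu i) D.K g k f β x y (R i)
      (fun j : Fin k => wg g j) w ⟨D.ult i, nu_rat D i⟩ (D.F1 i) (h.RR i hi) hk1 h.fm h.fd h.cu
      (h.s1 i hi) hβ1 (h.s2 i hi) (h.s4 i hi) (fun a b hab => Fin.ext (wg_inj hab))
      (fun j => ⟨ok_wg g j, by
        have h1 : wg g j ≤ j + g := wg_le
        have := j.2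
        omega⟩) (Or.inr hw1)
    refine ⟨em g x y w + ∑ j, c j * em g x y (wg g j), fun _ => ⟨?_, ?_⟩⟩
    · unfold Mo
      rw [add_sub_cancel_left]
      refine sum_mem fun j _ => ?_
      have h1 : wg g j < w := by
        have h1 : wg g j ≤ j + g := wg_le
        have := j.2
        omega
      exact Submodule.smul_mem (Fil D.K g x y w) (⟨c j, hcK j⟩ : D.K) (em_mem h1 (ok_wg g j))
    · refine hc.trans (Real.exp_le_exp.2 (le_of_eq ?_))
      rw [hδ, hw]
      push_cast
      ring
  choose G hG using hF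
  -- sizes of the monomials
  have hsx : ∀ i ∈ J, D.nu i x ≤ Real.exp 2 := by
    intro i hi
    have h1 : x = (x - R i ^ 2) + R i ^ 2 := by ring
    rw [h1]
    refine (D.ult i _ _).trans (max_le ((h.s2 i hi).trans
      (Real.exp_le_exp.2 (by linarith))) ?_)
    rw [map_pow, h.s1 i hi, ← Real.exp_nat_mul, mul_one]
    exact le_rfl
  have hsy : ∀ i ∈ J, D.nu i y ≤ Real.exp (2 * g + 1) := by
    intro i hi
    have h1 : y = (y - R i ^ (2 * g + 1)) + R i ^ (2 * g + 1) := by ring
    rw [h1]
    refine (D.ult i _ _).trans (max_le (h.s4 i hi).le ?_)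
    rw [map_pow, h.s1 i hi, ← Real.exp_nat_mul, mul_one]
    push_cast
    exact le_rfl
  have hem : ∀ i ∈ J, ∀ W, Ok g W → D.nu i (em g x y W) ≤ Real.exp W := by
    intro i hi W hW
    unfold Pool.Agent.Helper71.HN.em
    by_cases hev : Even W
    · rw [if_pos hev]
      refine (v_pow_le (hsx i hi) _).trans (le_of_eq ?_)
      rw [← Real.exp_nat_mul]
      congr 1
      obtain ⟨a, rfl⟩ := hev
      have : (a + a) / 2 = a := by omega
      rw [this]
      push_cast
      ring
    · rw [if_neg hev, map_mul]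
      have hW' : 2 * g + 1 ≤ W := by
        rcases hW with h' | h'
        · exact absurd h' hev
        · exact h'
      obtain ⟨a, ha⟩ := Nat.not_even_iff_odd.1 hev
      calc D.nu i (x ^ ((W - (2 * g + 1)) / 2)) * D.nu i y
          ≤ Real.exp 2 ^ ((W - (2 * g + 1)) / 2) * Real.exp (2 * g + 1) :=
            mul_le_mul (v_pow_le (hsx i hi) _) (hsy i hi) ((D.nu i).nonneg _) (by positivity)
        _ = Real.exp W := by
            rw [← Real.exp_nat_mul, ← Real.exp_add]
            congr 1
            have h3 : W = 2 * ((W - (2 * g + 1)) / 2) + (2 * g + 1) := by omega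
            have h4 : (W : ℝ) = 2 * (((W - (2 * g + 1)) / 2 : ℕ) : ℝ) + (2 * g + 1) := by
              exact_mod_cast h3
            rw [h4]
            ring
  obtain ⟨N, hN⟩ := sum_neg (g := g) hμ (by omega : 1 ≤ w) hδμ
  set A : ℕ := (N + g) / 2 with hA
  have hAW : ∀ j : Fin N, (wg g j + 1) / 2 ≤ A := by
    intro j
    have h1 : wg g j ≤ j + g := wg_le
    have := j.2
    omega
  have hem1 : ∀ i, i ∉ J → ∀ j : Fin N, D.nu i (m ^ A * em g x y (wg g j)) ≤ 1 := by
    intro i hi j
    rw [em_dec (ok_wg g j) (hAW j), map_mul]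
    have h1 := v_pow_le (h.fm1 i hi) (A - (wg g j + 1) / 2)
    rw [one_pow] at h1
    refine mul_le_one₀ h1 ((D.nu i).nonneg _) ?_
    split_ifs
    · have h2 := v_pow_le (h.fx i hi) (wg g j / 2)
      rwa [one_pow] at h2
    · rw [map_mul]
      have h2 := v_pow_le (h.fx i hi) ((wg g j - (2 * g + 1)) / 2)
      rw [one_pow] at h2
      exact mul_le_one₀ h2 ((D.nu i).nonneg _) (h.fy i hi)
  have hemO : ∀ j : Fin N, m ^ A * em g x y (wg g j) ∈ D.O := by
    intro j
    rw [em_dec (ok_wg g j) (hAW j)]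
    refine D.O.mul_mem (pow_mem h.mO _) ?_
    split_ifs
    · exact pow_mem h.xO _
    · exact D.O.mul_mem (pow_mem h.xO _) h.yO
  have hmA : m ^ A ≠ 0 := pow_ne_zero _ h.m0
  have hind : LinearIndependent D.K (fun j : Fin N => m ^ A * em g x y (wg g j)) := by
    have h1 := (em_indep hP hd hE hx N).map' (LinearMap.mulLeft D.K (m ^ A)) (by
      rw [LinearMap.ker_eq_bot]
      exact fun a b hab => mul_left_cancel₀ hmA hab)
    exact h1
  -- the exponents
  set l : ℕ → ℕ := fun j => (wg g j - 2 * g) / w with hl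
  have hlw : ∀ j, l j * w ≤ wg g j := fun j =>
    (Nat.div_mul_le_self _ _).trans (Nat.sub_le _ _)
  have hok : ∀ j, Ok g (wg g j - l j * w) := by
    intro j
    by_cases h0 : wg g j ≤ 2 * g
    · have h1 : l j = 0 := by
        rw [hl]
        show (wg g j - 2 * g) / w = 0
        rw [Nat.sub_eq_zero_of_le h0, Nat.zero_div]
      rw [h1, zero_mul, Nat.sub_zero]
      exact ok_wg g j
    · have h1 : l j * w ≤ wg g j - 2 * g := Nat.div_mul_le_self _ _
      rcases Nat.even_or_odd (wg g j - l j * w) with h2 | h2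
      · exact Or.inl h2
      · obtain ⟨b, hb⟩ := h2
        exact Or.inr (by omega)
  have hrest : ∀ j, wg g j - l j * w ≤ 2 * g + w := by
    intro j
    have h1 : wg g j - 2 * g < w * (l j + 1) := Nat.lt_mul_div_succ _ (by omega)
    have h2 : w * (l j + 1) = l j * w + w := by ring
    omega
  -- GSK
  have key := gskP D (fun j : Fin N => m ^ A * em g x y (wg g j))
    (fun i j => if i ∈ J then m ^ A * (G i ^ l j * em g x y (wg g j - l j * w)) else
      m ^ A * em g x y (wg g j))
    (fun _ _ => 1) (fun _ j => (j : ℕ)) hemO hind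
    (fun i j => ⟨D.K.one_mem, one_ne_zero⟩) (by
      intro i j
      show (if i ∈ J then _ else _) - 1 * _ ∈ _
      rw [one_mul]
      split_ifs with hi
      · have h1 : Mo D.K g x y (l j * w + (wg g j - l j * w))
            (G i ^ l j * em g x y (wg g j - l j * w)) :=
          Mo_mul hP hd hE (ok_mul hw1 _) (hok j) (Mo_pow hP hd hE hw1 (hG i hi).1 _) (Mo_em _)
        rw [Nat.add_sub_cancel' (hlw j)] at h1
        unfold Mo at h1
        rw [← mul_sub]
        have h2 : ∀ z ∈ Fil D.K g x y (wg g j), m ^ A * z ∈ Submodule.span D.K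
            ((fun j : Fin N => m ^ A * em g x y (wg g j)) '' {l | (l : ℕ) < (j : ℕ)}) := by
          intro z hz
          have h3 : Fil D.K g x y (wg g j) ≤ (Submodule.span D.K
            ((fun j : Fin N => m ^ A * em g x y (wg g j)) '' {l | (l : ℕ) < (j : ℕ)})).comap
              (LinearMap.mulLeft D.K (m ^ A)) := by
            refine Submodule.span_le.2 ?_
            rintro _ ⟨V, hV, hV1, rfl⟩
            obtain ⟨t, ht⟩ := wg_surj hV1
            have h4 : t < (j : ℕ) := by
              by_contra h5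
              rcases (not_lt.1 h5).eq_or_lt with h6 | h6
              · rw [← ht, h6] at hV
                exact lt_irrefl _ hV
              · have := wg_lt (g := g) h6
                omega
            refine Submodule.subset_span ⟨⟨t, h4.trans j.2⟩, h4, ?_⟩
            show m ^ A * em g x y (wg g t) = m ^ A * em g x y V
            rw [ht]
          exact h3 hz
        exact h2 _ h1
      · rw [sub_self]
        exact zero_mem _)
  have hprod : ∏ i, ∏ j : Fin N, D.nu i (if i ∈ J then m ^ A * (G i ^ l j *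
      em g x y (wg g j - l j * w)) else m ^ A * em g x y (wg g j)) / D.nu i 1 < 1 := by
    set S : ℝ := ∑ j ∈ Finset.range N, (μ * ((N + g) / 2 : ℕ) -
      δ * ((wg g j - 2 * g) / w : ℕ) + (2 * g + w)) with hS
    have h1 : ∀ i, ∏ j : Fin N, D.nu i (if i ∈ J then m ^ A * (G i ^ l j *
        em g x y (wg g j - l j * w)) else m ^ A * em g x y (wg g j)) / D.nu i 1 ≤
        if i ∈ J then Real.exp S else 1 := by
      intro i
      split_ifs with hi
      · rw [hS, Real.exp_sum, ← Fin.prod_univ_eq_prod_range (fun j => Real.exp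
          (μ * ((N + g) / 2 : ℕ) - δ * ((wg g j - 2 * g) / w : ℕ) + (2 * g + w)))]
        refine Finset.prod_le_prod (fun j _ => div_nonneg ((D.nu i).nonneg _)
          ((D.nu i).nonneg _)) fun j _ => ?_
        rw [(D.nu i).map_one, div_one, map_mul, map_mul]
        have e1 := v_pow_le (h.sm i hi) A
        have e2 := v_pow_le (hG i hi).2 (l j)
        have e3 := (hem i hi _ (hok j)).trans (Real.exp_le_exp.2
          (show ((wg g j - l j * w : ℕ) : ℝ) ≤ 2 * g + w by exact_mod_cast hrest j))
        calc D.nu i (m ^ A) * (D.nu i (G i ^ l j) * D.nu i (em g x y (wg g j - l j * w)))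
            ≤ Real.exp μ ^ A * (Real.exp (-δ) ^ l j * Real.exp (2 * g + w)) :=
              mul_le_mul e1 (mul_le_mul e2 e3 ((D.nu i).nonneg _) (by positivity))
                (by positivity) (by positivity)
          _ = Real.exp (μ * ((N + g) / 2 : ℕ) - δ * ((wg g j - 2 * g) / w : ℕ) +
                (2 * g + w)) := by
              rw [← Real.exp_nat_mul, ← Real.exp_nat_mul, ← Real.exp_add, ← Real.exp_add]
              congr 1
              rw [hA, hl]
              ring
      · refine Finset.prod_le_one (fun j _ => div_nonneg ((D.nu i).nonneg _)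
          ((D.nu i).nonneg _)) fun j _ => ?_
        rw [(D.nu i).map_one, div_one]
        exact hem1 i hi j
    refine lt_of_le_of_lt (Finset.prod_le_prod (fun i _ => Finset.prod_nonneg fun j _ =>
      div_nonneg ((D.nu i).nonneg _) ((D.nu i).nonneg _)) (fun i _ => h1 i)) ?_
    rw [Finset.prod_ite_mem, Finset.univ_inter, Finset.prod_const]
    exact pow_lt_one₀ (Real.exp_pos _).le (Real.exp_lt_one_iff.2 hN)
      (Finset.card_ne_zero.2 h.hJ)
  exact absurd key (not_le.2 hprod)

end

end Pool.Agent.Helper52.HN
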