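import Pool.Agent.Helper71.HN.SheetZ
import Pool.Agent.Helper52.HN.ALGH

/-! Project HZ, row ALGZ: `x` is algebraic over `K` (helper52, after the row ALGH). -/

set_option autoImplicit false

namespace Pool.Agent.Helper52.HZ

open Polynomial Pool.Agent.Helper71.JN Pool.Agent.Helper71.HN Pool.Agent.Helper71.HZ
open Pool.Agent.Helper70.JN (v_pow_le gskP one_le_prod)
open Pool.Agent.Helper52.HN

/-- the sum of the exponents becomes negative -/
theorem sum_neg2 {μ L δ : ℝ} {g w : ℕ} (hμ : 0 ≤ μ) (hL : 0 ≤ L) (hw : 1 ≤ w)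
    (hδ : (μ + L) * w < δ) :
    ∃ N : ℕ, ∑ j ∈ Finset.range N, (μ * ((N + g) / 2 : ℕ) + L * (wg g j : ℕ) -
      δ * ((wg g j - 2 * g) / w : ℕ)) < 0 := by
  have hw0 : (0 : ℝ) < w := by exact_mod_cast hw
  have hδ0 : 0 < δ := lt_of_le_of_lt (mul_nonneg (add_nonneg hμ hL) hw0.le) hδ
  have h0 : μ + L < δ / w := by rwa [lt_div_iff₀ hw0]
  have hη : 0 < (δ / w - μ - L) / 2 := by linarith
  set η : ℝ := (δ / w - μ - L) / 2 with hηd
  set C : ℝ := μ * g / 2 + L * g + δ / w * (2 * g + w) + (δ / w - L) / 2 with hC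
  obtain ⟨N, hN⟩ := exists_nat_gt (C / η)
  have hC0 : 0 ≤ C := by
    have h1 : 0 ≤ (δ / w - L) / 2 := by linarith
    have h2 : 0 ≤ δ / w * (2 * g + w) := by positivity
    have h3 : 0 ≤ μ * g / 2 := by positivity
    have h4 : 0 ≤ L * g := by positivity
    linarith
  have hN0 : (0 : ℝ) < N := lt_of_le_of_lt (by positivity) hN
  refine ⟨N, ?_⟩
  have h1 : ∀ j ∈ Finset.range N, μ * ((N + g) / 2 : ℕ) + L * (wg g j : ℕ) -
      δ * ((wg g j - 2 * g) / w : ℕ) ≤
      μ * ((N + g) / 2) + L * (j + g) - δ / w * (j - (2 * g + w)) := by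
    intro j _
    have h2 : (((N + g) / 2 : ℕ) : ℝ) ≤ (N + g) / 2 := by
      have := @Nat.cast_div_le ℝ _ _ _ (N + g) 2
      push_cast at this
      exact this
    have h3 : (j : ℝ) - (2 * g + w) ≤ w * (((wg g j - 2 * g) / w : ℕ) : ℝ) := by
      have h4 : wg g j - 2 * g < w * ((wg g j - 2 * g) / w + 1) :=
        Nat.lt_mul_div_succ _ (by omega)
      have h5 : j ≤ wg g j := le_wg
      have h6 : j < w * ((wg g j - 2 * g) / w + 1) + 2 * g := by omega
      have h7 : (j : ℝ) < w * ((((wg g j - 2 * g) / w : ℕ) : ℝ) + 1) + 2 * g := by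
        exact_mod_cast h6
      linarith
    have h4 : δ / w * ((j : ℝ) - (2 * g + w)) ≤ δ * (((wg g j - 2 * g) / w : ℕ) : ℝ) := by
      have h5 := mul_le_mul_of_nonneg_left h3 (div_pos hδ0 hw0).le
      have h6 : δ / w * (w * (((wg g j - 2 * g) / w : ℕ) : ℝ)) =
          δ * (((wg g j - 2 * g) / w : ℕ) : ℝ) := by
        field_simp
      linarith
    have h5 := mul_le_mul_of_nonneg_left h2 hμ
    have h6 : ((wg g j : ℕ) : ℝ) ≤ j + g := by exact_mod_cast (wg_le (g := g) (j := j))
    have h7 := mul_le_mul_of_nonneg_left h6 hL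
    linarith
  refine lt_of_le_of_lt (Finset.sum_le_sum h1) ?_
  have hs : ∑ j ∈ Finset.range N, (j : ℝ) = N * (N - 1) / 2 := by
    have h2 : ∀ n : ℕ, ∑ j ∈ Finset.range n, (j : ℝ) = n * (n - 1) / 2 := by
      intro n
      induction n with
      | zero => simp
      | succ n ih =>
        rw [Finset.sum_range_succ, ih]
        push_cast
        ring
    exact h2 N
  have h2 : ∑ j ∈ Finset.range N, (μ * ((N + g) / 2) + L * ((j : ℝ) + g) -
      δ / w * ((j : ℝ) - (2 * g + w))) = N * (C - N * η) := by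
    rw [Finset.sum_sub_distrib, Finset.sum_add_distrib, Finset.sum_const, ← Finset.mul_sum,
      ← Finset.mul_sum, Finset.sum_sub_distrib, Finset.sum_add_distrib, hs, Finset.sum_const,
      Finset.sum_const, Finset.card_range]
    simp only [nsmul_eq_mul]
    rw [hηd, hC]
    ring
  rw [h2]
  refine mul_neg_of_pos_of_neg hN0 ?_
  rw [div_lt_iff₀ hη] at hN
  linarith

/-- **(ALGZ)** `x` is algebraic over `K` -/
theorem ALGZ (hLFG : ST_LFGZ) : ST_ALGZ := by
  intro F Ω _ _ _ _ I _ r D J g f lam c m x y R h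
  classical
  by_contra hx
  have hg := h.hg
  -- the three sums
  set M0 : ℝ := ∑ i, Real.log (D.nu i m) with hM0d
  set L : ℝ := ∑ i, lam i with hLd
  set B : ℝ := ∑ i ∈ J, (c i - 2 * lam i) with hBd
  have hbig : M0 + L + B < 0 := h.big
  have hnm : ∀ i, 0 < D.nu i m := fun i => (D.nu i).pos h.m0
  have hM0 : 0 ≤ M0 := by
    rw [hM0d, ← Real.log_prod (fun i _ => (hnm i).ne')]
    exact Real.log_nonneg (one_le_prod D h.mO h.m0)
  have hL : 0 ≤ L := Finset.sum_nonneg fun i _ => h.l0 i
  -- the polynomial over `K`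
  set P : D.K[X] := f.map (algebraMap F D.K) with hPd
  have hP : P.Monic := h.fm.map _
  have hd : P.natDegree = 2 * g + 1 := by
    rw [hPd, h.fm.natDegree_map]
    exact h.fd
  have hE : y ^ 2 = aeval x P := by
    rw [hPd, aeval_map_algebraMap]
    exact h.cu
  -- the order
  have hη : 0 < -(M0 + L + B) := by linarith
  obtain ⟨n, hn⟩ := exists_nat_gt ((g : ℝ) * (M0 + L) / -(M0 + L + B))
  set k : ℕ := n + g + 1 with hk
  set w : ℕ := k + g with hw
  have hk1 : 1 ≤ k := by omega
  have hw1 : 2 * g + 1 ≤ w := by omega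
  set δ : ℝ := -(k * B) with hδ
  have hδμ : (M0 + L) * w < δ := by
    rw [div_lt_iff₀ hη] at hn
    have h1 : (n : ℝ) * -(M0 + L + B) ≤ k * -(M0 + L + B) := by
      refine mul_le_mul_of_nonneg_right ?_ hη.le
      exact_mod_cast (by omega : n ≤ k)
    rw [hδ, hw]
    push_cast
    nlinarith
  -- the forms
  have hF : ∀ i, ∃ G : Ω, i ∈ J → Mo D.K g x y w G ∧
      D.nu i G ≤ Real.exp (w * lam i + k * (c i - 2 * lam i)) := by
    intro i
    by_cases hi : i ∈ J
    swap
    · exact ⟨0, fun h => absurd h hi⟩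
    obtain ⟨e, heK, he⟩ := hLFG F Ω (D.nu i) D.K g k f (lam i) (c i) x y (R i)
      (fun j : Fin k => wg g j) w ⟨D.ult i, nu_rat D i⟩ (D.F1 i) (h.RR i hi) hk1 h.fm h.fd h.cu
      (h.l1 i hi) (h.s1 i hi) (h.hc i hi) (h.s2 i hi) (h.s4 i hi)
      (fun a b hab => Fin.ext (wg_inj hab))
      (fun j => ⟨ok_wg g j, by
        have h1 : wg g j ≤ j + g := wg_le
        have := j.2
        omega⟩) (Or.inr hw1)
    refine ⟨em g x y w + ∑ j, e j * em g x y (wg g j), fun _ => ⟨?_, he⟩⟩
    unfold Mo
    rw [add_sub_cancel_left]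
    refine sum_mem fun j _ => ?_
    have h1 : wg g j < w := by
      have h1 : wg g j ≤ j + g := wg_le
      have := j.2
      omega
    exact Submodule.smul_mem (Fil D.K g x y w) (⟨e j, heK j⟩ : D.K) (em_mem h1 (ok_wg g j))
  choose G hG using hF
  -- sizes of the monomials
  have hem : ∀ i, ∀ W, Ok g W → D.nu i (em g x y W) ≤ Real.exp (W * lam i) := by
    intro i W hW
    unfold Pool.Agent.Helper71.HN.em
    by_cases hev : Even W
    · rw [if_pos hev]
      refine (v_pow_le (h.sx i) _).trans (le_of_eq ?_)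
      rw [← Real.exp_nat_mul]
      congr 1
      obtain ⟨a, rfl⟩ := hev
      have : (a + a) / 2 = a := by omega
      rw [this]
      push_cast
      ring
    · rw [if_neg hev, map_mul]
      have hW' : 2 * g + 1 ≤ W := by
        rcases hW with h' | h'
        · exact absurd h' hev
        · exact h'
      obtain ⟨a, ha⟩ := Nat.not_even_iff_odd.1 hev
      calc D.nu i (x ^ ((W - (2 * g + 1)) / 2)) * D.nu i y
          ≤ Real.exp (2 * lam i) ^ ((W - (2 * g + 1)) / 2) * Real.exp ((2 * g + 1) * lam i) :=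
            mul_le_mul (v_pow_le (h.sx i) _) (h.sy i) ((D.nu i).nonneg _) (by positivity)
        _ = Real.exp (W * lam i) := by
            rw [← Real.exp_nat_mul, ← Real.exp_add]
            congr 1
            have h3 : W = 2 * ((W - (2 * g + 1)) / 2) + (2 * g + 1) := by omega
            have h4 : (W : ℝ) = 2 * (((W - (2 * g + 1)) / 2 : ℕ) : ℝ) + (2 * g + 1) := by
              exact_mod_cast h3
            rw [h4]
            ring
  obtain ⟨N, hN⟩ := sum_neg2 (g := g) hM0 hL (by omega : 1 ≤ w) hδμ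
  set A : ℕ := (N + g) / 2 with hA
  have hAW : ∀ j : Fin N, (wg g j + 1) / 2 ≤ A := by
    intro j
    have h1 : wg g j ≤ j + g := wg_le
    have := j.2
    omega
  have hemO : ∀ j : Fin N, m ^ A * em g x y (wg g j) ∈ D.O := by
    intro j
    rw [em_dec (ok_wg g j) (hAW j)]
    refine D.O.mul_mem (pow_mem h.mO _) ?_
    split_ifs
    · exact pow_mem h.xO _
    · exact D.O.mul_mem (pow_mem h.xO _) h.yO
  have hmA : m ^ A ≠ 0 := pow_ne_zero _ h.m0
  have hind : LinearIndependent D.K (fun j : Fin N => m ^ A * em g x y (wg g j)) := by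
    have h1 := (em_indep hP hd hE hx N).map' (LinearMap.mulLeft D.K (m ^ A)) (by
      rw [LinearMap.ker_eq_bot]
      exact fun a b hab => mul_left_cancel₀ hmA hab)
    exact h1
  -- the exponents
  set l : ℕ → ℕ := fun j => (wg g j - 2 * g) / w with hl
  have hlw : ∀ j, l j * w ≤ wg g j := fun j =>
    (Nat.div_mul_le_self _ _).trans (Nat.sub_le _ _)
  have hok : ∀ j, Ok g (wg g j - l j * w) := by
    intro j
    by_cases h0 : wg g j ≤ 2 * g
    · have h1 : l j = 0 := by
        rw [hl]
        show (wg g j - 2 * g) / w = 0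
        rw [Nat.sub_eq_zero_of_le h0, Nat.zero_div]
      rw [h1, zero_mul, Nat.sub_zero]
      exact ok_wg g j
    · have h1 : l j * w ≤ wg g j - 2 * g := Nat.div_mul_le_self _ _
      rcases Nat.even_or_odd (wg g j - l j * w) with h2 | h2
      · exact Or.inl h2
      · obtain ⟨b, hb⟩ := h2
        exact Or.inr (by omega)
  -- GSK
  have key := gskP D (fun j : Fin N => m ^ A * em g x y (wg g j))
    (fun i j => if i ∈ J then m ^ A * (G i ^ l j * em g x y (wg g j - l j * w)) else
      m ^ A * em g x y (wg g j))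
    (fun _ _ => 1) (fun _ j => (j : ℕ)) hemO hind
    (fun i j => ⟨D.K.one_mem, one_ne_zero⟩) (by
      intro i j
      show (if i ∈ J then _ else _) - 1 * _ ∈ _
      rw [one_mul]
      split_ifs with hi
      · have h1 : Mo D.K g x y (l j * w + (wg g j - l j * w))
            (G i ^ l j * em g x y (wg g j - l j * w)) :=
          Mo_mul hP hd hE (ok_mul hw1 _) (hok j) (Mo_pow hP hd hE hw1 (hG i hi).1 _) (Mo_em _)
        rw [Nat.add_sub_cancel' (hlw j)] at h1
        unfold Mo at h1
        rw [← mul_sub]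
        have h2 : ∀ z ∈ Fil D.K g x y (wg g j), m ^ A * z ∈ Submodule.span D.K
            ((fun j : Fin N => m ^ A * em g x y (wg g j)) '' {l | (l : ℕ) < (j : ℕ)}) := by
          intro z hz
          have h3 : Fil D.K g x y (wg g j) ≤ (Submodule.span D.K
            ((fun j : Fin N => m ^ A * em g x y (wg g j)) '' {l | (l : ℕ) < (j : ℕ)})).comap
              (LinearMap.mulLeft D.K (m ^ A)) := by
            refine Submodule.span_le.2 ?_
            rintro _ ⟨V, hV, hV1, rfl⟩
            obtain ⟨t, ht⟩ := wg_surj hV1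
            have h4 : t < (j : ℕ) := by
              by_contra h5
              rcases (not_lt.1 h5).eq_or_lt with h6 | h6
              · rw [← ht, h6] at hV
                exact lt_irrefl _ hV
              · have := wg_lt (g := g) h6
                omega
            refine Submodule.subset_span ⟨⟨t, h4.trans j.2⟩, h4, ?_⟩
            show m ^ A * em g x y (wg g t) = m ^ A * em g x y V
            rw [ht]
          exact h3 hz
        exact h2 _ h1
      · rw [sub_self]
        exact zero_mem _)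
  -- the exponents at the place `i`
  set b : I → ℝ := fun i => if i ∈ J then c i - 2 * lam i else 0 with hb
  have hbB : ∑ i, b i = B := by
    rw [hb, hBd, Finset.sum_ite_mem, Finset.univ_inter]
  set T : I → ℕ → ℝ := fun i j => A * Real.log (D.nu i m) + wg g j * lam i + l j * (k * b i)
    with hT
  have hmA' : ∀ i, D.nu i (m ^ A) = Real.exp (A * Real.log (D.nu i m)) := by
    intro i
    rw [map_pow, Real.exp_nat_mul, Real.exp_log (hnm i)]
  have h1 : ∀ i, ∀ j : Fin N, D.nu i (if i ∈ J then m ^ A * (G i ^ l j *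
      em g x y (wg g j - l j * w)) else m ^ A * em g x y (wg g j)) / D.nu i 1 ≤
      Real.exp (T i j) := by
    intro i j
    rw [(D.nu i).map_one, div_one]
    split_ifs with hi
    · rw [map_mul, map_mul, hmA']
      have e2 := v_pow_le (hG i hi).2 (l j)
      have e3 := hem i _ (hok j)
      have hbi : b i = c i - 2 * lam i := if_pos hi
      calc Real.exp (A * Real.log (D.nu i m)) *
            (D.nu i (G i ^ l j) * D.nu i (em g x y (wg g j - l j * w)))
          ≤ Real.exp (A * Real.log (D.nu i m)) *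
            (Real.exp (w * lam i + k * (c i - 2 * lam i)) ^ l j *
              Real.exp ((wg g j - l j * w : ℕ) * lam i)) :=
            mul_le_mul_of_nonneg_left (mul_le_mul e2 e3 ((D.nu i).nonneg _) (by positivity))
              (Real.exp_pos _).le
        _ = Real.exp (T i j) := by
            rw [← Real.exp_nat_mul, ← Real.exp_add, ← Real.exp_add]
            congr 1
            rw [hT, Nat.cast_sub (hlw j), Nat.cast_mul]
            show _ = A * Real.log (D.nu i m) + wg g j * lam i + l j * (k * b i)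
            rw [hbi]
            ring
    · rw [map_mul, hmA']
      have hbi : b i = 0 := if_neg hi
      calc Real.exp (A * Real.log (D.nu i m)) * D.nu i (em g x y (wg g j))
          ≤ Real.exp (A * Real.log (D.nu i m)) * Real.exp (wg g j * lam i) :=
            mul_le_mul_of_nonneg_left (hem i _ (ok_wg g j)) (Real.exp_pos _).le
        _ = Real.exp (T i j) := by
            rw [← Real.exp_add]
            congr 1
            show _ = A * Real.log (D.nu i m) + wg g j * lam i + l j * (k * b i)
            rw [hbi]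
            ring
  have hsum : ∑ i, ∑ j : Fin N, T i j < 0 := by
    rw [Finset.sum_comm, Fin.sum_univ_eq_sum_range (fun j => ∑ i, T i j)]
    refine lt_of_le_of_lt (le_of_eq ?_) hN
    refine Finset.sum_congr rfl fun j _ => ?_
    show ∑ i, (A * Real.log (D.nu i m) + wg g j * lam i + l j * (k * b i)) =
      M0 * A + L * wg g j - δ * l j
    rw [Finset.sum_add_distrib, Finset.sum_add_distrib, ← Finset.mul_sum, ← Finset.mul_sum,
      ← Finset.mul_sum, ← Finset.mul_sum, hbB, hδ]
    ring
  have hprod : ∏ i, ∏ j : Fin N, D.nu i (if i ∈ J then m ^ A * (G i ^ l j *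
      em g x y (wg g j - l j * w)) else m ^ A * em g x y (wg g j)) / D.nu i 1 < 1 := by
    refine lt_of_le_of_lt (Finset.prod_le_prod (fun i _ => Finset.prod_nonneg fun j _ =>
      div_nonneg ((D.nu i).nonneg _) ((D.nu i).nonneg _)) (fun i _ =>
      Finset.prod_le_prod (fun j _ => div_nonneg ((D.nu i).nonneg _) ((D.nu i).nonneg _))
        fun j _ => h1 i j)) ?_
    have h2 : ∏ i, ∏ j : Fin N, Real.exp (T i j) = Real.exp (∑ i, ∑ j : Fin N, T i j) := by
      rw [Real.exp_sum]
      exact Finset.prod_congr rfl fun i _ => (Real.exp_sum _ _).symm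
    rw [h2]
    exact Real.exp_lt_one_iff.2 hsum
  exact absurd key (not_le.2 hprod)

end Pool.Agent.Helper52.HZ
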